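import Mathlib

set_option autoImplicit false
set_option maxHeartbeats 400000

namespace Pool.Agent.Results.MP_c68965_al.Counter

/-- `H` and `K` are conjugate subgroups: `g H g⁻¹ = K` for some `g`. -/
def Conjugate {G : Type} [Group G] (H K : Subgroup G) : Prop :=
  ∃ g : G, H.map (MulAut.conj g).toMonoidHom = K

/-- `k ≥ 1` pairwise inconjugate maximal subgroups of `G` intersect in the Frattini subgroup. -/
def InconjFamily (G : Type) [Group G] (k : ℕ) : Prop :=
  1 ≤ k ∧ ∃ M : Fin k → Subgroup G, (∀ i, IsCoatom (M i)) ∧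
    (∀ i j, i ≠ j → ¬ Conjugate (M i) (M j)) ∧ ⨅ i, M i = frattini G

instance : Fact (Nat.Prime 31) := ⟨by norm_num⟩

abbrev F := ZMod 31

/-- affine maps `v ↦ s v + (a, b)` of `F²`. -/
@[ext] structure A where
  a : F
  b : F
  s : Fˣ

instance : Mul A := ⟨fun x y => ⟨x.a + x.s * y.a, x.b + x.s * y.b, x.s * y.s⟩⟩
instance : One A := ⟨⟨0, 0, 1⟩⟩
instance : Inv A := ⟨fun x => ⟨-(x.s⁻¹ * x.a), -(x.s⁻¹ * x.b), x.s⁻¹⟩⟩

@[simp] theorem mul_a (x y : A) : (x * y).a = x.a + x.s * y.a := rfl
@[simp] theorem mul_b (x y : A) : (x * y).b = x.b + x.s * y.b := rfl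
@[simp] theorem mul_s (x y : A) : (x * y).s = x.s * y.s := rfl
@[simp] theorem one_a : (1 : A).a = 0 := rfl
@[simp] theorem one_b : (1 : A).b = 0 := rfl
@[simp] theorem one_s : (1 : A).s = 1 := rfl
@[simp] theorem inv_a (x : A) : (x⁻¹).a = -((x.s : F)⁻¹ * x.a) := by
  rw [← Units.val_inv_eq_inv_val]; rfl
@[simp] theorem inv_b (x : A) : (x⁻¹).b = -((x.s : F)⁻¹ * x.b) := by
  rw [← Units.val_inv_eq_inv_val]; rfl
@[simp] theorem inv_s (x : A) : (x⁻¹).s = x.s⁻¹ := rfl

instance : Group A := Group.ofLeftAxioms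
  (fun x y z => by ext <;> simp <;> ring) (fun x => by ext <;> simp)
  (fun x => A.ext (by rw [mul_a, inv_a, inv_s, Units.val_inv_eq_inv_val, one_a]; ring)
    (by rw [mul_b, inv_b, inv_s, Units.val_inv_eq_inv_val, one_b]; ring) (inv_mul_cancel x.s))

def eqv : A ≃ F × F × Fˣ where
  toFun x := (x.a, x.b, x.s)
  invFun y := ⟨y.1, y.2.1, y.2.2⟩
  left_inv _ := rfl
  right_inv _ := rfl

instance : Finite A := Finite.of_equiv _ eqv.symm

theorem card_A : Nat.card A = 31 * (31 * 30) := by
  rw [Nat.card_congr eqv, Nat.card_prod, Nat.card_prod, Nat.card_zmod, Nat.card_units,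
    Nat.card_zmod]

def act (p q : F) (g : A) (c : F) : F := g.s * c + (p * g.a + q * g.b)

theorem act_mul (p q : F) (g h : A) (c : F) : act p q (g * h) c = act p q g (act p q h c) := by
  simp [act]; ring

theorem act_one (p q c : F) : act p q 1 c = c := by simp [act]

def M (p q c : F) : Subgroup A where
  carrier := {g | act p q g c = c}
  mul_mem' := by
    intro g h hg hh
    show act p q (g * h) c = c
    rw [act_mul, hh, hg]
  one_mem' := act_one p q c
  inv_mem' := by
    intro g hg
    show act p q g⁻¹ c = c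
    conv_lhs => rw [← show act p q g c = c from hg]
    rw [← act_mul, inv_mul_cancel, act_one]

theorem mem_M (p q c : F) (g : A) : g ∈ M p q c ↔ act p q g c = c := Iff.rfl

theorem coatom (p q c u v : F) (huv : p * u + q * v = 1) : IsCoatom (M p q c) := by
  constructor
  · intro h
    have : (⟨u, v, 1⟩ : A) ∈ M p q c := by rw [h]; trivial
    rw [mem_M] at this
    simp [act, huv] at this
  · intro K hK
    obtain ⟨g, hgK, hg⟩ := SetLike.exists_of_lt hK
    rw [eq_top_iff]
    intro g' _
    by_cases hg' : g' ∈ M p q c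
    · exact hK.le hg'
    rw [mem_M, ← sub_eq_zero] at hg hg'
    let s : Fˣ := Units.mk0 _ (div_ne_zero hg' hg)
    let m : A := ⟨(c - s * c) * u, (c - s * c) * v, s⟩
    have hm : ∀ z, act p q m z = s * (z - c) + c := fun z => by
      simp only [act, m]; linear_combination (c - s * c) * huv
    have h1 : m ∈ M p q c := by rw [mem_M, hm]; ring
    have h2 : g'⁻¹ * (m * g) ∈ M p q c := by
      rw [mem_M, act_mul, act_mul, hm]
      have : (s : F) * (act p q g c - c) + c = act p q g' c := by
        simp only [s, Units.val_mk0]; field_simp; ring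
      rw [this, ← act_mul, inv_mul_cancel, act_one]
    have h3 := K.mul_mem (K.mul_mem (hK.le h1) hgK) (K.inv_mem (hK.le h2))
    simpa [mul_assoc] using h3

theorem inconj (p q c p' q' c' u v : F) (h1 : p * u + q * v = 0) (h2 : p' * u + q' * v ≠ 0) :
    ¬ Conjugate (M p q c) (M p' q' c') := by
  rintro ⟨g, hg⟩
  have : g * ⟨u, v, 1⟩ * g⁻¹ ∈ M p' q' c' := by
    rw [← hg]
    exact ⟨⟨u, v, 1⟩, by rw [SetLike.mem_coe, mem_M]; simp [act, h1], rfl⟩
  rw [mem_M] at this
  simp only [act, mul_a, mul_b, mul_s, inv_a, inv_b, inv_s, mul_one, mul_inv_cancel,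
    Units.val_one, one_mul] at this
  apply mul_ne_zero g.s.ne_zero h2
  have hs : (g.s : F) * (g.s : F)⁻¹ = 1 := mul_inv_cancel₀ g.s.ne_zero
  linear_combination this + (p' * g.a + q' * g.b) * hs

def sHom : A →* Fˣ where
  toFun x := x.s
  map_one' := rfl
  map_mul' _ _ := rfl

def tHom : Multiplicative (F × F) →* A where
  toFun x := ⟨x.toAdd.1, x.toAdd.2, 1⟩
  map_one' := rfl
  map_mul' _ _ := by ext <;> simp

theorem result : ∃ (G : Type) (_ : Group G), Finite G ∧ Nontrivial G ∧ Group.IsSolvable G ∧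
    ∃ k, InconjFamily G k ∧ k < (Nat.card G).primeFactors.card := by
  refine ⟨A, inferInstance, inferInstance, eqv.nontrivial, ?_, 3, ⟨by norm_num,
    ![M 1 0 0, M 0 1 0, M 1 1 1], ?_, ?_, ?_⟩, ?_⟩
  · apply Group.isSolvable_of_ker_le_range tHom sHom
    intro x hx
    exact ⟨Multiplicative.ofAdd (x.a, x.b), A.ext rfl rfl (Eq.symm hx)⟩
  · intro i
    fin_cases i
    · exact coatom _ _ _ 1 0 (by norm_num)
    · exact coatom _ _ _ 0 1 (by norm_num)
    · exact coatom _ _ _ 1 0 (by norm_num)
  · intro i j hij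
    fin_cases i <;> fin_cases j
    · exact absurd rfl hij
    · exact inconj 1 0 0 0 1 0 0 1 (by norm_num) (by norm_num)
    · exact inconj 1 0 0 1 1 1 0 1 (by norm_num) (by norm_num)
    · exact inconj 0 1 0 1 0 0 1 0 (by norm_num) (by norm_num)
    · exact absurd rfl hij
    · exact inconj 0 1 0 1 1 1 1 0 (by norm_num) (by norm_num)
    · exact inconj 1 1 1 1 0 0 1 (-1) (by norm_num) (by norm_num)
    · exact inconj 1 1 1 0 1 0 1 (-1) (by norm_num) (by norm_num)
    · exact absurd rfl hij
  · apply le_antisymm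
    · intro g hg
      rw [Subgroup.mem_iInf] at hg
      have h0 : act 1 0 g 0 = 0 := hg 0
      have h1 : act 0 1 g 0 = 0 := hg 1
      have h2 : act 1 1 g 1 = 1 := hg 2
      simp only [act, mul_zero, zero_mul, one_mul, mul_one, zero_add, add_zero] at h0 h1 h2
      rw [h0, h1, add_zero, add_zero] at h2
      have : g = 1 := A.ext h0 h1 (Units.ext h2)
      rw [this]; exact one_mem _
    · refine le_iInf fun i => frattini_le_coatom ?_
      fin_cases i
      · exact coatom _ _ _ 1 0 (by norm_num)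
      · exact coatom _ _ _ 0 1 (by norm_num)
      · exact coatom _ _ _ 1 0 (by norm_num)
  · rw [card_A]
    have : ({2, 3, 5, 31} : Finset ℕ) ⊆ (31 * (31 * 30)).primeFactors := by
      intro p hp
      simp only [Finset.mem_insert, Finset.mem_singleton] at hp
      rcases hp with rfl | rfl | rfl | rfl <;>
        exact Nat.mem_primeFactors.2 ⟨by norm_num, by norm_num, by norm_num⟩
    exact lt_of_lt_of_le (by decide) (Finset.card_le_card this)

end Pool.Agent.Results.MP_c68965_al.Counter
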